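import Mathlib

set_option autoImplicit false

namespace Pool.Agent.Results.MP_05361d_gt.FiniteCover

universe u v

open Set Topology

/-- `U` is an open cover of the space `X`. -/
def IsOpenCover (X : Type u) [TopologicalSpace X] (U : Set (Set X)) : Prop :=
  (∀ s ∈ U, IsOpen s) ∧ ⋃₀ U = univ

/-- The family of sets `V` refines the family `U`: every member of `V` lies in a member of `U`. -/
def Refines {X : Type u} (V U : Set (Set X)) : Prop :=
  ∀ s ∈ V, ∃ t ∈ U, s ⊆ t

/-- `f : X → Y` is a `U`-map: it is continuous and `Y` has an open cover `V` such that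
the family of preimages `f⁻¹(W)`, `W ∈ V`, refines `U`. -/
def IsCoverMap {X : Type u} {Y : Type v} [TopologicalSpace X] [TopologicalSpace Y]
    (U : Set (Set X)) (f : X → Y) : Prop :=
  Continuous f ∧ ∃ V : Set (Set Y), IsOpenCover Y V ∧ Refines ((fun W => f ⁻¹' W) '' V) U

/-- A continuum: a connected compact Hausdorff space. -/
def IsContinuum (X : Type u) [TopologicalSpace X] : Prop :=
  CompactSpace X ∧ T2Space X ∧ ConnectedSpace X

/-- The order of the family `U`, i.e. the supremum of the cardinalities of the subfamilies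
`F ⊆ U` with nonempty intersection, is at most `r`. -/
def OrderLE {X : Type u} (U : Set (Set X)) (r : ℕ) : Prop :=
  ∀ F ⊆ U, (⋂₀ F).Nonempty → F.encard ≤ r

/-- `dim X ≤ m`: every open cover of `X` has an open refinement (an open cover refining it)
of order at most `m + 1`. -/
def DimLE (X : Type u) [TopologicalSpace X] (m : ℕ) : Prop :=
  ∀ U : Set (Set X), IsOpenCover X U →
    ∃ V : Set (Set X), IsOpenCover X V ∧ Refines V U ∧ OrderLE V (m + 1)

/-- `X` is `k`-dimensional: `dim X ≤ k` and `dim X ≤ m` fails for every `m < k`. -/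
def HasDim (X : Type u) [TopologicalSpace X] (k : ℕ) : Prop :=
  DimLE X k ∧ ∀ m < k, ¬ DimLE X m

/-- `X` is `K`-like, for a class `K` of topological spaces: for every open cover `U` of `X`
there is a `U`-map from `X` onto some member of `K`. -/
def IsLike (K : (Y : Type v) → TopologicalSpace Y → Prop) (X : Type u) [TopologicalSpace X] :
    Prop :=
  ∀ U : Set (Set X), IsOpenCover X U →
    ∃ (Y : Type v) (_ : TopologicalSpace Y) (f : X → Y), K Y inferInstance ∧
      Function.Surjective f ∧ IsCoverMap U f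

/-- `X` is `n`-`K`-like: for every open cover `U` of `X` with at most `n` members
there is a `U`-map from `X` onto some member of `K`. -/
def IsNLike (n : ℕ) (K : (Y : Type v) → TopologicalSpace Y → Prop) (X : Type u)
    [TopologicalSpace X] : Prop :=
  ∀ U : Set (Set X), IsOpenCover X U → U.encard ≤ n →
    ∃ (Y : Type v) (_ : TopologicalSpace Y) (f : X → Y), K Y inferInstance ∧
      Function.Surjective f ∧ IsCoverMap U f

/-! ### Hemmingsen's reduction -/

/-- every open cover with at most `k + 2` members has an open refinement of order `≤ k + 1` -/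
def SmallCov (X : Type u) [TopologicalSpace X] (k : ℕ) : Prop :=
  ∀ G : Set (Set X), IsOpenCover X G → G.encard ≤ (k + 2 : ℕ) →
    ∃ V : Set (Set X), IsOpenCover X V ∧ Refines V G ∧ OrderLE V (k + 1)

section
variable {X : Type u} [TopologicalSpace X]

lemma smallCov_of_map {k : ℕ}
    (H : ∀ U : Set (Set X), IsOpenCover X U → U.encard ≤ (k + 2 : ℕ) →
      ∃ (Y : Type v) (_ : TopologicalSpace Y) (f : X → Y), DimLE Y k ∧
        Function.Surjective f ∧ IsCoverMap U f) : SmallCov X k := by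
  intro G hG hcard
  obtain ⟨Y, tY, f, hdim, -, hf, V, hV, href⟩ := H G hG hcard
  obtain ⟨V', hV', href', hord⟩ := hdim V hV
  refine ⟨(fun W => f ⁻¹' W) '' V', ⟨?_, ?_⟩, ?_, ?_⟩
  · rintro _ ⟨W, hW, rfl⟩
    exact (hV'.1 W hW).preimage hf
  · apply eq_univ_of_forall
    intro x
    have : f x ∈ ⋃₀ V' := by rw [hV'.2]; trivial
    obtain ⟨W, hW, hx⟩ := this
    exact ⟨f ⁻¹' W, ⟨W, hW, rfl⟩, hx⟩
  · rintro _ ⟨W, hW, rfl⟩
    obtain ⟨T, hT, hWT⟩ := href' W hW
    obtain ⟨S, hS, hTS⟩ := href (f ⁻¹' T) ⟨T, hT, rfl⟩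
    exact ⟨S, hS, (preimage_mono hWT).trans hTS⟩
  · intro F hF hne
    obtain ⟨x, hx⟩ := hne
    have hch : ∀ s : Set X, ∃ W : Set Y, s ∈ F → W ∈ V' ∧ f ⁻¹' W = s := by
      intro s
      by_cases hs : s ∈ F
      · obtain ⟨W, hW, hWs⟩ := hF hs
        exact ⟨W, fun _ => ⟨hW, hWs⟩⟩
      · exact ⟨∅, fun h => absurd h hs⟩
    choose g hg using hch
    have hinj : InjOn g F := by
      intro s hs t ht hst
      rw [← (hg s hs).2, ← (hg t ht).2, hst]
    rw [← hinj.encard_image]
    apply hord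
    · rintro _ ⟨s, hs, rfl⟩
      exact (hg s hs).1
    · refine ⟨f x, ?_⟩
      rintro _ ⟨s, hs, rfl⟩
      have h1 : x ∈ s := hx s hs
      rw [← (hg s hs).2] at h1
      exact h1

lemma shrink_step {k : ℕ} (H : SmallCov X k) {ι : Type} [DecidableEq ι]
    (W : ι → Set X) (hWo : ∀ i, IsOpen (W i)) (hWc : ∀ x, ∃ i, x ∈ W i)
    (I : Finset ι) (hI : I.card = k + 2) :
    ∃ W' : ι → Set X, (∀ i, IsOpen (W' i)) ∧ (∀ x, ∃ i, x ∈ W' i) ∧ (∀ i, W' i ⊆ W i) ∧
      ∀ x, ∃ i ∈ I, x ∉ W' i := by
  obtain ⟨i₀, hi₀⟩ : I.Nonempty := by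
    rw [← Finset.card_pos, hI]; omega
  let G : ι → Set X := fun i => if i = i₀ then ⋃ j ∈ {j | j ∉ I ∨ j = i₀}, W j else W i
  have hGo : ∀ i, IsOpen (G i) := by
    intro i
    by_cases h : i = i₀
    · simp only [G, h, if_true]
      exact isOpen_biUnion fun j _ => hWo j
    · simp only [G, h, if_false]
      exact hWo i
  have hGc : IsOpenCover X (G '' (I : Set ι)) := by
    refine ⟨?_, ?_⟩
    · rintro _ ⟨i, _, rfl⟩
      exact hGo i
    · apply eq_univ_of_forall
      intro x
      obtain ⟨j, hj⟩ := hWc x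
      by_cases h : j ∈ I ∧ j ≠ i₀
      · refine ⟨G j, ⟨j, h.1, rfl⟩, ?_⟩
        simp only [G, h.2, if_false]
        exact hj
      · refine ⟨G i₀, ⟨i₀, hi₀, rfl⟩, ?_⟩
        simp only [G, if_true]
        refine mem_iUnion₂.2 ⟨j, ?_, hj⟩
        by_cases h1 : j ∈ I
        · right
          by_contra h2
          exact h ⟨h1, h2⟩
        · left; exact h1
  have hGcard : (G '' (I : Set ι)).encard ≤ (k + 2 : ℕ) := by
    refine (encard_image_le _ _).trans ?_
    rw [encard_coe_eq_coe_finsetCard, hI]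
  obtain ⟨V, hV, href, hord⟩ := H _ hGc hGcard
  have hch : ∀ s : Set X, ∃ i : ι, s ∈ V → i ∈ I ∧ s ⊆ G i := by
    intro s
    by_cases hs : s ∈ V
    · obtain ⟨_, ⟨i, hi, rfl⟩, hsi⟩ := href s hs
      exact ⟨i, fun _ => ⟨hi, hsi⟩⟩
    · exact ⟨i₀, fun h => absurd h hs⟩
  choose a ha using hch
  let S : ι → Set X := fun i => ⋃₀ {s | s ∈ V ∧ a s = i}
  have hSo : ∀ i, IsOpen (S i) := by
    intro i
    apply isOpen_sUnion
    rintro s ⟨hs, _⟩
    exact hV.1 s hs
  have hSG : ∀ i, S i ⊆ G i := by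
    rintro i x ⟨s, ⟨hs, rfl⟩, hx⟩
    exact (ha s hs).2 hx
  let W' : ι → Set X := fun i => if i ∈ I ∧ i ≠ i₀ then W i ∩ S i else W i ∩ S i₀
  refine ⟨W', ?_, ?_, ?_, ?_⟩
  · intro i
    simp only [W']
    split_ifs
    · exact (hWo i).inter (hSo i)
    · exact (hWo i).inter (hSo i₀)
  · intro x
    have hx : x ∈ ⋃₀ V := by rw [hV.2]; trivial
    obtain ⟨s, hs, hxs⟩ := hx
    have hxS : x ∈ S (a s) := ⟨s, ⟨hs, rfl⟩, hxs⟩
    by_cases h : a s = i₀
    · have hxG := hSG _ hxS
      simp only [G, h, if_true] at hxG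
      obtain ⟨j, hj, hxj⟩ := mem_iUnion₂.1 hxG
      refine ⟨j, ?_⟩
      have hn : ¬ (j ∈ I ∧ j ≠ i₀) := by
        rintro ⟨h1, h2⟩
        rcases hj with hj | hj
        · exact hj h1
        · exact h2 hj
      simp only [W', hn, if_false]
      exact ⟨hxj, h ▸ hxS⟩
    · refine ⟨a s, ?_⟩
      have hxG := hSG _ hxS
      simp only [G, h, if_false] at hxG
      have hy : (a s ∈ I ∧ a s ≠ i₀) := ⟨(ha s hs).1, h⟩
      simp only [W']
      rw [if_pos hy]
      exact ⟨hxG, hxS⟩
  · intro i
    simp only [W']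
    split_ifs
    · exact inter_subset_left
    · exact inter_subset_left
  · intro x
    by_contra hcon
    push Not at hcon
    have hxS : ∀ i ∈ I, x ∈ S i := by
      intro i hi
      have := hcon i hi
      simp only [W'] at this
      split_ifs at this with h
      · exact this.2
      · have hi' : i = i₀ := by
          by_contra h2
          exact h ⟨hi, h2⟩
        rw [hi']
        exact this.2
    have hch2 : ∀ i : ι, ∃ s : Set X, i ∈ I → s ∈ V ∧ a s = i ∧ x ∈ s := by
      intro i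
      by_cases hi : i ∈ I
      · obtain ⟨s, ⟨hs, hsi⟩, hx⟩ := hxS i hi
        exact ⟨s, fun _ => ⟨hs, hsi, hx⟩⟩
      · exact ⟨∅, fun h => absurd h hi⟩
    choose t ht using hch2
    have hinj : InjOn t (I : Set ι) := by
      intro i hi j hj hij
      rw [← (ht i hi).2.1, ← (ht j hj).2.1, hij]
    have h1 := hord (t '' (I : Set ι)) (by
      rintro _ ⟨i, hi, rfl⟩
      exact (ht i hi).1) ⟨x, by
      rintro _ ⟨i, hi, rfl⟩
      exact (ht i hi).2.2⟩
    rw [hinj.encard_image, encard_coe_eq_coe_finsetCard, hI] at h1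
    have h2 : (k + 2 : ℕ) ≤ k + 1 := by exact_mod_cast h1
    omega

lemma shrink_all {k : ℕ} (H : SmallCov X k) {ι : Type} [DecidableEq ι]
    (W : ι → Set X) (hWo : ∀ i, IsOpen (W i)) (hWc : ∀ x, ∃ i, x ∈ W i)
    (P : Finset (Finset ι)) (hP : ∀ I ∈ P, I.card = k + 2) :
    ∃ W' : ι → Set X, (∀ i, IsOpen (W' i)) ∧ (∀ x, ∃ i, x ∈ W' i) ∧ (∀ i, W' i ⊆ W i) ∧
      ∀ I ∈ P, ∀ x, ∃ i ∈ I, x ∉ W' i := by
  induction P using Finset.induction_on with
  | empty => exact ⟨W, hWo, hWc, fun _ => Subset.rfl, by simp⟩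
  | insert I P hIP ih =>
    obtain ⟨W₁, h1, h2, h3, h4⟩ := ih (fun J hJ => hP J (Finset.mem_insert_of_mem hJ))
    obtain ⟨W₂, g1, g2, g3, g4⟩ := shrink_step H W₁ h1 h2 I (hP I (Finset.mem_insert_self _ _))
    refine ⟨W₂, g1, g2, fun i => (g3 i).trans (h3 i), ?_⟩
    intro J hJ x
    rcases Finset.mem_insert.1 hJ with rfl | hJ
    · exact g4 x
    · obtain ⟨i, hi, hx⟩ := h4 J hJ x
      exact ⟨i, hi, fun h => hx (g3 i h)⟩

/-! ### Coordinates via the moment curve -/

/-- A signed combination of powers with few non-zero coefficients vanishes only trivially. -/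
lemma vandermonde_zero {ι : Type} [Fintype ι] [DecidableEq ι] (t : ι → ℝ)
    (ht : Function.Injective t) (d : ι → ℝ) (M : ℕ)
    (hcard : (Finset.univ.filter fun i => d i ≠ 0).card ≤ M)
    (hd : ∀ l < M, ∑ i, d i * t i ^ l = 0) : ∀ i, d i = 0 := by
  set S := Finset.univ.filter fun i => d i ≠ 0 with hS
  let n := S.card
  let e : Fin n ≃ S := (S.equivFin).symm
  have hsum : ∀ l < M, ∑ j : Fin n, d (e j) * t (e j) ^ l = 0 := by
    intro l hl
    rw [← hd l hl]
    rw [Equiv.sum_comp e (fun i : S => d i * t i ^ l)]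
    rw [Finset.sum_coe_sort S (fun i => d i * t i ^ l)]
    apply Finset.sum_subset (Finset.subset_univ S)
    intro i _ hi
    have : d i = 0 := by
      by_contra h
      exact hi (by simp [hS, h])
    rw [this, zero_mul]
  have hz := Matrix.eq_zero_of_forall_pow_sum_mul_pow_eq_zero
    (f := fun j : Fin n => t (e j)) (v := fun j : Fin n => d (e j))
    (by
      intro a b hab
      have := ht hab
      exact e.injective (Subtype.ext this))
    (fun i => hsum i (lt_of_lt_of_le i.2 hcard))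
  intro i
  by_contra h
  have hi : i ∈ S := by simp [hS, h]
  have := congrFun hz (e.symm ⟨i, hi⟩)
  simp at this
  exact h this

lemma exists_coords {k : ℕ} [CompactSpace X] [T2Space X] (H : SmallCov X k)
    (U : Set (Set X)) (hU : IsOpenCover X U) :
    ∃ e : Fin (2 * k + 1) → X → ℝ, (∀ l, Continuous (e l)) ∧
      ∃ ε > 0, ∀ x, ∃ s ∈ U, ∀ y, (∀ l, |e l y - e l x| < ε) → y ∈ s := by
  classical
  -- finite subcover indexed by `Fin N`
  obtain ⟨T, hT⟩ : ∃ T : Finset U, (univ : Set X) ⊆ ⋃ i ∈ T, (i : Set X) := by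
    apply isCompact_univ.elim_finite_subcover
    · intro i
      exact hU.1 _ i.2
    · intro x _
      have : x ∈ ⋃₀ U := by rw [hU.2]; trivial
      obtain ⟨s, hs, hx⟩ := this
      exact mem_iUnion.2 ⟨⟨s, hs⟩, hx⟩
  let N := T.card
  let eT : Fin N ≃ T := (T.equivFin).symm
  let W₀ : Fin N → Set X := fun i => ((eT i : U) : Set X)
  have hW₀U : ∀ i, W₀ i ∈ U := fun i => (eT i : U).2
  have hW₀c : ∀ x, ∃ i, x ∈ W₀ i := by
    intro x
    obtain ⟨s, hs, hx⟩ := mem_iUnion₂.1 (hT (mem_univ x))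
    refine ⟨eT.symm ⟨s, hs⟩, ?_⟩
    simp only [W₀, Equiv.apply_symm_apply]
    exact hx
  obtain ⟨W, hWo, hWc, hWW₀, hWI⟩ := shrink_all H W₀ (fun i => hU.1 _ (hW₀U i)) hW₀c
    (Finset.powersetCard (k + 2) Finset.univ) (fun I hI => (Finset.mem_powersetCard.1 hI).2)
  -- partition of unity
  obtain ⟨θ, hθ⟩ := PartitionOfUnity.exists_isSubordinate (isClosed_univ (X := X)) W hWo
    (fun x _ => mem_iUnion.2 (hWc x))
  have hθW : ∀ i x, θ i x ≠ 0 → x ∈ W i := by
    intro i x h
    exact hθ i (subset_tsupport _ h)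
  have hθsum : ∀ x, ∑ i, θ i x = 1 := by
    intro x
    have := θ.sum_eq_one (mem_univ x)
    rwa [finsum_eq_sum_of_fintype] at this
  have hθcard : ∀ x, (Finset.univ.filter fun i => θ i x ≠ 0).card ≤ k + 1 := by
    intro x
    by_contra h
    push Not at h
    obtain ⟨I, hI, hIc⟩ := Finset.exists_subset_card_eq
      (Nat.succ_le_of_lt h : k + 2 ≤ (Finset.univ.filter fun i => θ i x ≠ 0).card)
    obtain ⟨i, hi, hx⟩ := hWI I (Finset.mem_powersetCard.2 ⟨Finset.subset_univ _, hIc⟩) x
    exact hx (hθW i x (Finset.mem_filter.1 (hI hi)).2)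
  let e : Fin (2 * k + 1) → X → ℝ := fun l x => ∑ i, θ i x * (i : ℝ) ^ ((l : ℕ) + 1)
  have hec : ∀ l, Continuous (e l) := by
    intro l
    apply continuous_finsetSum
    intro i _
    exact ((θ i).continuous).mul continuous_const
  have hinj : ∀ x y, (∀ l, e l x = e l y) → ∀ i, θ i x = θ i y := by
    intro x y hxy i
    have key := vandermonde_zero (ι := Fin N) (fun i => ((i : ℕ) : ℝ))
      (by
        intro a b hab
        have hab' : ((a : ℕ) : ℝ) = ((b : ℕ) : ℝ) := hab
        exact Fin.ext (Nat.cast_injective hab'))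
      (fun i => θ i x - θ i y) (2 * k + 2) ?_ ?_ i
    · linarith
    · have hsub : (Finset.univ.filter fun i => θ i x - θ i y ≠ 0) ⊆
          (Finset.univ.filter fun i => θ i x ≠ 0) ∪ (Finset.univ.filter fun i => θ i y ≠ 0) := by
        intro j hj
        simp only [Finset.mem_filter, Finset.mem_univ, true_and, Finset.mem_union] at hj ⊢
        by_contra hc
        push Not at hc
        apply hj
        rw [hc.1, hc.2, sub_zero]
      refine (Finset.card_le_card hsub).trans ((Finset.card_union_le _ _).trans ?_)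
      have := hθcard x
      have := hθcard y
      omega
    · intro l hl
      rcases Nat.eq_zero_or_pos l with rfl | hl0
      · simp only [pow_zero, mul_one, Finset.sum_sub_distrib, hθsum, sub_self]
      · have := hxy ⟨l - 1, by omega⟩
        simp only [e] at this
        have hl1 : l - 1 + 1 = l := by omega
        rw [hl1] at this
        simp only [sub_mul, Finset.sum_sub_distrib]
        linarith
  -- compactness
  have hNpos : ∀ x : X, 0 < N := by
    intro x
    obtain ⟨i, _⟩ := hWc x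
    exact i.pos
  let D : X × X → ℝ := fun p => ∑ l, |e l p.2 - e l p.1|
  have hDc : Continuous D := by
    apply continuous_finsetSum
    intro l _
    exact (((hec l).comp continuous_snd).sub ((hec l).comp continuous_fst)).abs
  let Z : Set (X × X) := ⋃ j : Fin N, {p | (1 : ℝ) / N ≤ θ j p.1 ∧ θ j p.2 = 0}
  have hZc : IsCompact Z := by
    apply isCompact_iUnion
    intro j
    apply IsClosed.isCompact
    apply IsClosed.and
    · exact isClosed_le continuous_const ((θ j).continuous.comp continuous_fst)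
    · exact isClosed_eq ((θ j).continuous.comp continuous_snd) continuous_const
  have hDpos : ∀ p ∈ Z, 0 < D p := by
    rintro ⟨x, y⟩ hp
    obtain ⟨j, hj1, hj2⟩ := mem_iUnion.1 hp
    by_contra h
    push Not at h
    have h0 : ∀ l, |e l y - e l x| = 0 := by
      have hs : ∑ l, |e l y - e l x| = 0 :=
        le_antisymm h (Finset.sum_nonneg fun l _ => abs_nonneg _)
      intro l
      exact (Finset.sum_eq_zero_iff_of_nonneg (fun l _ => abs_nonneg _)).1 hs l (Finset.mem_univ l)
    have hθe : θ j x = θ j y := hinj x y (fun l => (sub_eq_zero.1 (abs_eq_zero.1 (h0 l))).symm) j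
    have hj1' : (1 : ℝ) / N ≤ θ j x := hj1
    have hj2' : θ j y = 0 := hj2
    rw [hθe, hj2'] at hj1'
    have hN : (0 : ℝ) < N := Nat.cast_pos.2 (hNpos x)
    exact absurd hj1' (not_le.2 (one_div_pos.2 hN))
  obtain ⟨δ, hδ, hδD⟩ := hZc.exists_forall_le' hDc.continuousOn hDpos
  refine ⟨e, hec, δ / (2 * k + 1), by positivity, ?_⟩
  intro x
  have hN : (0 : ℝ) < N := by exact_mod_cast hNpos x
  obtain ⟨j, hj⟩ : ∃ j, (1 : ℝ) / N ≤ θ j x := by
    by_contra h
    push Not at h
    have h1 : ∑ j, θ j x < ∑ j : Fin N, (1 : ℝ) / N := by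
      apply Finset.sum_lt_sum_of_nonempty
      · exact ⟨⟨0, hNpos x⟩, Finset.mem_univ _⟩
      · intro j _
        exact h j
    rw [hθsum] at h1
    simp only [Finset.sum_const, Finset.card_univ, Fintype.card_fin, nsmul_eq_mul] at h1
    rw [mul_one_div_cancel hN.ne'] at h1
    exact lt_irrefl _ h1
  refine ⟨W₀ j, hW₀U j, ?_⟩
  intro y hy
  apply hWW₀
  apply hθW
  intro h0
  have hmem : (x, y) ∈ Z := mem_iUnion.2 ⟨j, hj, h0⟩
  have h1 := hδD _ hmem
  have h2 : D (x, y) < δ := by
    simp only [D]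
    calc ∑ l, |e l y - e l x| < ∑ l : Fin (2 * k + 1), δ / (2 * k + 1) := by
          apply Finset.sum_lt_sum_of_nonempty
          · exact ⟨⟨0, by omega⟩, Finset.mem_univ _⟩
          · intro l _
            exact hy l
      _ = δ := by
          simp only [Finset.sum_const, Finset.card_univ, Fintype.card_fin, nsmul_eq_mul]
          push_cast
          field_simp
  linarith

end

/-! ### Lifting through the exponential map -/

/-- A nowhere zero continuous function on a contractible space has a continuous logarithm. -/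
lemma exists_log {Y : Type v} [TopologicalSpace Y] [ContractibleSpace Y] (h : C(Y, ℂ))
    (h0 : ∀ y, h y ≠ 0) : ∃ G : C(Y, ℂ), ∀ y, Complex.exp (G y) = h y := by
  obtain ⟨y₀, ⟨F⟩⟩ := id_nullhomotopic Y
  let F' := F.symm
  let H : C(unitInterval × Y, {z : ℂ // z ≠ 0}) :=
    ⟨fun p => ⟨h (F' p), h0 _⟩, by
      apply Continuous.subtype_mk
      exact h.continuous.comp F'.continuous⟩
  let f : C(Y, ℂ) := ContinuousMap.const Y (Complex.log (h y₀))
  have hH0 : ∀ a, H (0, a) = (fun z : ℂ ↦ (⟨_, z.exp_ne_zero⟩ : {z : ℂ // z ≠ 0})) (f a) := by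
    intro a
    apply Subtype.ext
    simp only [H, f, ContinuousMap.coe_mk, ContinuousMap.const_apply]
    rw [Complex.exp_log (h0 _)]
    rw [F'.apply_zero]
    simp
  refine ⟨⟨fun y => Complex.isCoveringMap_exp.liftHomotopy H f hH0 (1, y),
    (ContinuousMap.continuous _).comp (by fun_prop)⟩, ?_⟩
  intro y
  have := congrFun (Complex.isCoveringMap_exp.liftHomotopy_lifts H f hH0) (1, y)
  have h2 := congrArg Subtype.val this
  simp only [Function.comp_apply, H, ContinuousMap.coe_mk] at h2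
  rw [ContinuousMap.coe_mk, h2, F'.apply_one]
  simp

/-! ### Three half-circles cover the circle -/

lemma exists_cos_pos (φ : ℝ) : ∃ a : Fin 3, 0 < Real.cos (φ - 2 * Real.pi * (a : ℕ) / 3) := by
  by_contra h
  push Not at h
  have h0 := h 0
  have h1 := h 1
  have h2 := h 2
  have e0 : φ - 2 * Real.pi * (((0 : Fin 3) : ℕ) : ℝ) / 3 = φ := by simp
  have e1 : φ - 2 * Real.pi * (((1 : Fin 3) : ℕ) : ℝ) / 3 = (φ - Real.pi) + Real.pi / 3 := by
    simp; ring
  have e2 : φ - 2 * Real.pi * (((2 : Fin 3) : ℕ) : ℝ) / 3 = (φ - Real.pi) - Real.pi / 3 := by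
    simp; ring
  rw [e0] at h0
  rw [e1, Real.cos_add, Real.cos_sub_pi, Real.sin_sub_pi, Real.cos_pi_div_three,
    Real.sin_pi_div_three] at h1
  rw [e2, Real.cos_sub, Real.cos_sub_pi, Real.sin_sub_pi, Real.cos_pi_div_three,
    Real.sin_pi_div_three] at h2
  have hc : Real.cos φ = 0 := by linarith
  rw [hc] at h1 h2
  have hs3 : (0 : ℝ) < Real.sqrt 3 := Real.sqrt_pos.2 (by norm_num)
  have hs : Real.sin φ = 0 := by nlinarith
  have := Real.sin_sq_add_cos_sq φ
  rw [hc, hs] at this
  norm_num at this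

/-- A real function on a connected space whose cosine is positive oscillates by less than `π`. -/
lemma osc_lt_pi {X : Type u} [TopologicalSpace X] [PreconnectedSpace X] (g : X → ℝ)
    (hg : Continuous g) (hpos : ∀ x, 0 < Real.cos (g x)) (x y : X) : |g x - g y| < Real.pi := by
  wlog hxy : g y ≤ g x generalizing x y with H
  · rw [abs_sub_comm]
    exact H y x (le_of_lt (not_le.1 hxy))
  rw [abs_of_nonneg (sub_nonneg.2 hxy)]
  by_contra hcon
  push Not at hcon
  have hpi := Real.pi_pos
  let j : ℤ := ⌈(g y - Real.pi / 2) / Real.pi⌉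
  have hj1 : g y ≤ Real.pi / 2 + j * Real.pi := by
    have := Int.le_ceil ((g y - Real.pi / 2) / Real.pi)
    rw [div_le_iff₀ hpi] at this
    linarith
  have hj2 : Real.pi / 2 + j * Real.pi < g y + Real.pi := by
    have := Int.ceil_lt_add_one ((g y - Real.pi / 2) / Real.pi)
    have h2 : (j : ℝ) < (g y - Real.pi / 2) / Real.pi + 1 := this
    have h3 : (j : ℝ) * Real.pi < ((g y - Real.pi / 2) / Real.pi + 1) * Real.pi :=
      mul_lt_mul_of_pos_right h2 hpi
    rw [add_mul, div_mul_cancel₀ _ hpi.ne'] at h3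
    linarith
  obtain ⟨z, hz⟩ := mem_range_of_exists_le_of_exists_ge hg
    (⟨y, hj1⟩ : ∃ a, g a ≤ Real.pi / 2 + j * Real.pi)
    (⟨x, by linarith⟩ : ∃ b, Real.pi / 2 + j * Real.pi ≤ g b)
  have h1 := hpos z
  rw [hz] at h1
  have h2 : Real.cos (Real.pi / 2 + j * Real.pi) = 0 := by
    rw [Real.cos_eq_zero_iff]
    exact ⟨j, by ring⟩
  linarith

/-! ### The main argument -/

/-- If `X` has coordinates `e` as above and `f : X → Y` is a map onto a compact Hausdorff
contractible space which is small with respect to the cover pulled back from the torus, then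
all level sets of `f`, and even preimages of small open sets, are `ε`-small in `e`. -/
lemma main_step {m : ℕ} {X : Type u} [TopologicalSpace X] [ConnectedSpace X]
    {Y : Type v} [TopologicalSpace Y] [CompactSpace Y] [T2Space Y] [ContractibleSpace Y]
    (φ : Fin m → X → ℝ) (hφ : ∀ l, Continuous (φ l)) (f : X → Y) (hfs : Function.Surjective f)
    (hf : IsCoverMap (range fun a : Fin m → Fin 3 =>
      {x : X | ∀ l, 0 < Real.cos (φ l x - 2 * Real.pi * (a l : ℕ) / 3)}) f) :
    ∃ g : Fin m → Y → ℝ, (∀ l, Continuous (g l)) ∧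
      ∀ l x x', |(g l (f x) - φ l x) - (g l (f x') - φ l x')| < Real.pi := by
  classical
  obtain ⟨hfc, V, hV, href⟩ := hf
  -- finite subcover of `Y`
  obtain ⟨T, hT⟩ : ∃ T : Finset V, (univ : Set Y) ⊆ ⋃ i ∈ T, (i : Set Y) := by
    apply isCompact_univ.elim_finite_subcover
    · intro i
      exact hV.1 _ i.2
    · intro x _
      have : x ∈ ⋃₀ V := by rw [hV.2]; trivial
      obtain ⟨s, hs, hx⟩ := this
      exact mem_iUnion.2 ⟨⟨s, hs⟩, hx⟩
  let W : T → Set Y := fun i => ((i : V) : Set Y)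
  obtain ⟨ρ, hρ⟩ := PartitionOfUnity.exists_isSubordinate (isClosed_univ (X := Y)) W
    (fun i => hV.1 _ (i : V).2)
    (fun y _ => by
      obtain ⟨s, hs, hx⟩ := mem_iUnion₂.1 (hT (mem_univ y))
      exact mem_iUnion.2 ⟨⟨s, hs⟩, hx⟩)
  have hρW : ∀ i y, ρ i y ≠ 0 → y ∈ W i := by
    intro i y h
    exact hρ i (subset_tsupport _ h)
  have hρsum : ∀ y, ∑ i, ρ i y = 1 := by
    intro y
    have := ρ.sum_eq_one (mem_univ y)
    rwa [finsum_eq_sum_of_fintype] at this
  -- the label of each member of the cover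
  have hlab : ∀ i : T, ∃ a : Fin m → Fin 3, ∀ x, f x ∈ W i →
      ∀ l, 0 < Real.cos (φ l x - 2 * Real.pi * (a l : ℕ) / 3) := by
    intro i
    obtain ⟨_, ⟨a, rfl⟩, ha⟩ := href (f ⁻¹' (W i)) ⟨W i, (i : V).2, rfl⟩
    exact ⟨a, fun x hx => ha hx⟩
  choose a ha using hlab
  let h : Fin m → Y → ℂ := fun l y =>
    ∑ i, (ρ i y : ℂ) * Complex.exp ((2 * Real.pi * (a i l : ℕ) / 3 : ℝ) * Complex.I)
  have hhc : ∀ l, Continuous (h l) := by
    intro l
    apply continuous_finsetSum
    intro i _
    exact (Complex.continuous_ofReal.comp (ρ i).continuous).mul continuous_const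
  have hre : ∀ l x, 0 < (h l (f x) * Complex.exp ((-(φ l x) : ℝ) * Complex.I)).re := by
    intro l x
    have e1 : (h l (f x) * Complex.exp ((-(φ l x) : ℝ) * Complex.I)).re =
        ∑ i, ρ i (f x) * Real.cos (φ l x - 2 * Real.pi * (a i l : ℕ) / 3) := by
      simp only [h]
      rw [Finset.sum_mul, Complex.re_sum]
      apply Finset.sum_congr rfl
      intro i _
      rw [mul_assoc, ← Complex.exp_add, ← add_mul, ← Complex.ofReal_add, Complex.re_ofReal_mul,
        Complex.exp_ofReal_mul_I_re]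
      congr 1
      rw [← Real.cos_neg]
      congr 1
      ring
    rw [e1]
    have hnn : ∀ i, 0 ≤ ρ i (f x) * Real.cos (φ l x - 2 * Real.pi * (a i l : ℕ) / 3) := by
      intro i
      by_cases h0 : ρ i (f x) = 0
      · rw [h0, zero_mul]
      · exact mul_nonneg (ρ.nonneg i _) (ha i x (hρW i _ h0) l).le
    obtain ⟨i, hi⟩ : ∃ i, ρ i (f x) ≠ 0 := by
      by_contra hc
      push Not at hc
      have := hρsum (f x)
      rw [Finset.sum_eq_zero (fun i _ => hc i)] at this
      exact zero_ne_one this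
    apply Finset.sum_pos' (fun i _ => hnn i)
    refine ⟨i, Finset.mem_univ _, ?_⟩
    exact mul_pos (lt_of_le_of_ne (ρ.nonneg i _) (Ne.symm hi)) (ha i x (hρW i _ hi) l)
  have hh0 : ∀ l y, h l y ≠ 0 := by
    intro l y
    obtain ⟨x, rfl⟩ := hfs y
    intro h0
    have := hre l x
    rw [h0, zero_mul, Complex.zero_re] at this
    exact lt_irrefl _ this
  have hG : ∀ l, ∃ G : C(Y, ℂ), ∀ y, Complex.exp (G y) = h l y := fun l =>
    exists_log ⟨h l, hhc l⟩ (hh0 l)
  choose G hG using hG
  refine ⟨fun l y => (G l y).im, fun l => Complex.continuous_im.comp (G l).continuous, ?_⟩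
  intro l
  apply osc_lt_pi (fun x => (G l (f x)).im - φ l x)
  · exact (Complex.continuous_im.comp ((G l).continuous.comp hfc)).sub (hφ l)
  · intro x
    have h1 := hre l x
    rw [← hG l (f x), ← Complex.exp_add, Complex.exp_re] at h1
    have h2 : (G l (f x) + ((-(φ l x) : ℝ) : ℂ) * Complex.I).im = (G l (f x)).im - φ l x := by
      rw [Complex.add_im, Complex.mul_I_im, Complex.ofReal_re]
      ring
    rw [h2] at h1
    exact (mul_pos_iff_of_pos_left (Real.exp_pos _)).1 h1

/-- **Finite-cover characterisation of `K`-like continua.**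
For every `k` and every class `K` of `k`-dimensional contractible continua, a continuum is
`K`-like if and only if it is `3 ^ (2 * k + 1)`-`K`-like. -/
theorem result (k : ℕ) (K : (Y : Type v) → TopologicalSpace Y → Prop)
    (hK : ∀ (Y : Type v) [tY : TopologicalSpace Y], K Y tY →
      IsContinuum Y ∧ HasDim Y k ∧ ContractibleSpace Y)
    (X : Type u) [TopologicalSpace X] (hX : IsContinuum X) :
    IsLike K X ↔ IsNLike (3 ^ (2 * k + 1)) K X := by
  classical
  obtain ⟨hX1, hX2, hX3⟩ := hX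
  constructor
  · intro h U hU _
    exact h U hU
  · intro h U hU
    -- dimension
    have hpow : k + 2 ≤ 3 ^ (2 * k + 1) := by
      have h1 : 2 * k + 1 < 3 ^ (2 * k + 1) := Nat.lt_pow_self (by norm_num)
      have h2 : 3 ≤ 3 ^ (2 * k + 1) := by
        calc 3 = 3 ^ 1 := by norm_num
          _ ≤ 3 ^ (2 * k + 1) := Nat.pow_le_pow_right (by norm_num) (by omega)
      omega
    have hS : SmallCov X k := by
      apply smallCov_of_map.{u, v}
      intro U' hU' hcard
      obtain ⟨Y, tY, f, hY, hfs, hf⟩ := h U' hU' (hcard.trans (by exact_mod_cast hpow))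
      exact ⟨Y, tY, f, (hK Y hY).2.1.1, hfs, hf⟩
    obtain ⟨e, hec, ε, hε, he⟩ := exists_coords hS U hU
    -- angles
    let φ : Fin (2 * k + 1) → X → ℝ := fun l x => 2 * Real.pi / ε * e l x
    have hφc : ∀ l, Continuous (φ l) := fun l => continuous_const.mul (hec l)
    let A : (Fin (2 * k + 1) → Fin 3) → Set X := fun a =>
      {x : X | ∀ l, 0 < Real.cos (φ l x - 2 * Real.pi * (a l : ℕ) / 3)}
    have hAo : ∀ a, IsOpen (A a) := by
      intro a
      have hA : A a = ⋂ l, {x : X | 0 < Real.cos (φ l x - 2 * Real.pi * (a l : ℕ) / 3)} := by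
        ext x
        exact ⟨fun hx => mem_iInter.2 fun l => hx l, fun hx l => mem_iInter.1 hx l⟩
      rw [hA]
      apply isOpen_iInter_of_finite
      intro l
      exact isOpen_lt continuous_const
        (Real.continuous_cos.comp ((hφc l).sub continuous_const))
    have hAcov : IsOpenCover X (range A) := by
      refine ⟨?_, ?_⟩
      · rintro _ ⟨a, rfl⟩
        exact hAo a
      · apply eq_univ_of_forall
        intro x
        choose a ha using fun l => exists_cos_pos (φ l x)
        exact ⟨A a, ⟨a, rfl⟩, ha⟩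
    have hAcard : (range A).encard ≤ (3 ^ (2 * k + 1) : ℕ) := by
      rw [← image_univ]
      refine (encard_image_le _ _).trans ?_
      rw [encard_univ, ENat.card_eq_coe_fintype_card]
      simp
    obtain ⟨Y, tY, f, hY, hfs, hf⟩ := h (range A) hAcov (by exact_mod_cast hAcard)
    obtain ⟨⟨hY1, hY2, hY3⟩, -, hY4⟩ := hK Y hY
    obtain ⟨g, hgc, hg⟩ := main_step φ hφc f hfs hf
    refine ⟨Y, tY, f, hY, hfs, hf.1, range fun y₀ : Y => {y | ∀ l, |g l y - g l y₀| < Real.pi},
      ⟨?_, ?_⟩, ?_⟩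
    · rintro _ ⟨y₀, rfl⟩
      have hO : {y | ∀ l, |g l y - g l y₀| < Real.pi} =
          ⋂ l, {y | |g l y - g l y₀| < Real.pi} := by
        ext y
        exact ⟨fun hy => mem_iInter.2 fun l => hy l, fun hy l => mem_iInter.1 hy l⟩
      show IsOpen {y | ∀ l, |g l y - g l y₀| < Real.pi}
      rw [hO]
      apply isOpen_iInter_of_finite
      intro l
      exact isOpen_lt ((hgc l).sub continuous_const).abs continuous_const
    · apply eq_univ_of_forall
      intro y
      refine ⟨_, ⟨y, rfl⟩, ?_⟩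
      intro l
      simp [Real.pi_pos]
    · rintro _ ⟨_, ⟨y₀, rfl⟩, rfl⟩
      obtain ⟨x₀, rfl⟩ := hfs y₀
      obtain ⟨s, hs, hxs⟩ := he x₀
      refine ⟨s, hs, ?_⟩
      intro x hx
      apply hxs
      intro l
      have h1 : |g l (f x) - g l (f x₀)| < Real.pi := hx l
      have h2 := hg l x x₀
      have h3 : |φ l x - φ l x₀| < 2 * Real.pi := by
        rw [abs_lt] at h1 h2 ⊢
        constructor <;> linarith [h1.1, h1.2, h2.1, h2.2]
      have h4 : φ l x - φ l x₀ = 2 * Real.pi / ε * (e l x - e l x₀) := by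
        simp only [φ]; ring
      have hpos : 0 < 2 * Real.pi / ε := by positivity
      rw [h4, abs_mul, abs_of_pos hpos, div_mul_eq_mul_div, div_lt_iff₀ hε] at h3
      have hpi := Real.pi_pos
      nlinarith

end Pool.Agent.Results.MP_05361d_gt.FiniteCover
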